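import Pool.Agent.U29.DZ.Stm

set_option autoImplicit false

/-!
# Project DZ, package CYCx: cycles have a bounded smallest element (helper187)
-/

namespace Pool.Agent.U187.DZ

open Finset MeasureTheory Filter Pool.Agent.U762.RP Pool.Agent.U29.DZ Function

/-- a periodic point of smallest modulus in its cycle is bad -/
theorem core (hI : S_IDX) {d : ℕ} {m r : ℤ → ℤ} {lam X : ℕ → ℝ} {N : ℕ → ℕ} {ω : ℤ → ℤ}
    (hX : StrictMono X) (hXt : Tendsto X atTop atTop) (hN : Monotone N)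
    (hlen : ∀ (j : ℕ) (ω : ℤ → ℤ), (∀ x : ℤ, |ω x| ≤ (N (j + 1) : ℤ)) → ∀ x : ℤ,
      x ∈ Function.periodicPts (stp d m r ω) → (∀ i : ℕ, |x| ≤ |(stp d m r ω)^[i] x|) →
        X j ≤ |(x : ℝ)| → 4 / Real.log (1 / lam j) * Real.log (2 + |(x : ℝ)|) + 1 ≤
          (Function.minimalPeriod (stp d m r ω) x : ℝ))
    (hω : ∀ x : ℤ, X 0 ≤ |(x : ℝ)| → |ω x| ≤ (N (idx X x) : ℤ))
    (hω0 : ∀ x : ℤ, |(x : ℝ)| < X 0 → ω x = 0) {y : ℤ}
    (hy : y ∈ Function.periodicPts (stp d m r ω)) (hmin : ∀ i : ℕ, |y| ≤ |(stp d m r ω)^[i] y|)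
    (h0 : X 0 ≤ |(y : ℝ)|) : Bad d m r lam X y ω := by
  by_contra hbad
  obtain ⟨f, hf⟩ : ∃ f : ℤ → ℤ, f = stp d m r ω := ⟨_, rfl⟩
  obtain ⟨j, hj⟩ : ∃ j : ℕ, j = idx X y := ⟨_, rfl⟩
  obtain ⟨n, hn⟩ : ∃ n : ℕ, n = Function.minimalPeriod f y := ⟨_, rfl⟩
  unfold Bad Pth at hbad
  rw [← hf, ← hj] at hbad
  rw [← hf] at hy hmin
  have hn0 : 0 < n := by
    rw [hn]
    exact Function.minimalPeriod_pos_of_mem_periodicPts hy
  obtain ⟨hI1, hI2, _, hI4⟩ := hI X hX hXt y
  rw [← hj] at hI1 hI2 hI4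
  have hjy : X j ≤ |(y : ℝ)| := hI1 h0
  have hfn : f^[n] y = y := by
    rw [hn]
    exact Function.isPeriodicPt_minimalPeriod f y
  have hminR : ∀ i : ℕ, |(y : ℝ)| ≤ |((f^[i] y : ℤ) : ℝ)| := by
    intro i
    have := hmin i
    exact_mod_cast this
  have hinj : ∀ a b : ℕ, a < b → f^[a] y = f^[b] y → n ≤ b - a := by
    intro a b hab h
    have h1 : Function.IsPeriodicPt f (b - a) (f^[a] y) := by
      unfold Function.IsPeriodicPt Function.IsFixedPt
      rw [← Function.iterate_add_apply, Nat.sub_add_cancel hab.le, h]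
    have h2 : Function.minimalPeriod f (f^[a] y) = n := by
      rw [hn]
      exact Function.minimalPeriod_apply_iterate hy a
    rw [← h2]
    exact h1.minimalPeriod_le (Nat.sub_pos_of_lt hab)
  push Not at hbad
  obtain ⟨hb1, hb2⟩ := hbad
  -- all terms are below `X (j + 2)`
  have hup : ∀ k : ℕ, |((f^[k] y : ℤ) : ℝ)| < X (j + 2) := by
    by_contra hc
    push Not at hc
    classical
    have hL := Nat.find_spec hc
    have hLm : ∀ k < Nat.find hc, |((f^[k] y : ℤ) : ℝ)| < X (j + 2) := fun k hk =>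
      not_le.1 (Nat.find_min hc hk)
    obtain ⟨L, hLdef⟩ : ∃ L : ℕ, L = Nat.find hc := ⟨_, rfl⟩
    rw [← hLdef] at hL hLm
    refine hb2 L (fun i hi => ⟨hjy.trans (hminR i), hLm i hi⟩) ?_ hL
    intro a b hab hbL h
    have h1 := hinj a b hab h
    have h2 : n ≤ L := by omega
    have h3 : f^[L - n] y = f^[L] y := by
      conv_rhs => rw [← Nat.sub_add_cancel h2, Function.iterate_add_apply, hfn]
    have h4 := hLm (L - n) (by omega)
    rw [h3] at h4
    exact absurd hL (not_le.2 h4)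
  -- the period is short
  have hLt : n < Lt lam j y := by
    by_contra hc
    rw [not_lt] at hc
    refine hb1 (fun i hi => ⟨hjy.trans (hminR i), hup i⟩) ?_ (hjy.trans (hminR _))
    intro a b hab hbL h
    have h1 := hinj a b hab h
    omega
  unfold Lt at hLt
  rw [Nat.lt_ceil] at hLt
  -- the truncated perturbation
  classical
  obtain ⟨ω', hω'⟩ : ∃ ω' : ℤ → ℤ, ω' = fun x : ℤ => if |(x : ℝ)| < X (j + 2) then ω x else 0 :=
    ⟨_, rfl⟩
  have hiter : ∀ k : ℕ, (stp d m r ω')^[k] y = f^[k] y := by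
    intro k
    induction k with
    | zero => rfl
    | succ k ih =>
      rw [Function.iterate_succ_apply', Function.iterate_succ_apply', ih, hf]
      rw [hf] at hup
      unfold stp
      have h1 := hup k
      unfold stp at h1
      rw [hω']
      simp only
      rw [if_pos h1]
  have hper : ∀ k : ℕ, Function.IsPeriodicPt (stp d m r ω') k y ↔ Function.IsPeriodicPt f k y := by
    intro k
    unfold Function.IsPeriodicPt Function.IsFixedPt
    rw [hiter]
  have hmp : Function.minimalPeriod (stp d m r ω') y = n := by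
    rw [hn]
    exact Function.minimalPeriod_eq_minimalPeriod_iff.2 hper
  have hbd : ∀ x : ℤ, |ω' x| ≤ (N (j + 1) : ℤ) := by
    intro x
    rw [hω']
    simp only
    split_ifs with h
    · rcases lt_or_ge |(x : ℝ)| (X 0) with h1 | h1
      · rw [hω0 x h1]
        simp
      · have h2 : idx X x ≤ j + 1 := (hI X hX hXt x).2.2.2 (j + 1) h
        have h3 := hN h2
        exact (hω x h1).trans (by exact_mod_cast h3)
    · simp
  have hfinal := hlen j ω' hbd y (by
      obtain ⟨p, hp, hpp⟩ := hy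
      exact ⟨p, hp, (hper p).2 hpp⟩) (fun i => by rw [hiter]; exact hmin i) hjy
  rw [hmp] at hfinal
  linarith

/-- **CYCx** -/
theorem t_CYCx : S_CYCx := by
  intro hI d m r lam X N ω hX hXt _ hN hlen hω hω0 hfin
  have hNm : Monotone N := monotone_nat_of_le_succ hN
  obtain ⟨b, hb⟩ := (hfin.image (fun x : ℤ => |(x : ℝ)|)).bddAbove
  refine ⟨max (X 0) (b + 1), fun x hx => ?_⟩
  by_contra hcon
  push Not at hcon
  obtain ⟨f, hf⟩ : ∃ f : ℤ → ℤ, f = stp d m r ω := ⟨_, rfl⟩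
  rw [← hf] at hx hcon
  obtain ⟨i, hi⟩ : ∃ i : ℕ, (f^[i] x).natAbs = sInf (Set.range fun k : ℕ => (f^[k] x).natAbs) :=
    Nat.sInf_mem (Set.range_nonempty _)
  have hmin : ∀ k : ℕ, |f^[i] x| ≤ |f^[k] (f^[i] x)| := by
    intro k
    rw [← Function.iterate_add_apply, Int.abs_eq_natAbs, Int.abs_eq_natAbs]
    have h1 : (f^[i] x).natAbs ≤ (f^[k + i] x).natAbs := by
      rw [hi]
      exact Nat.sInf_le ⟨k + i, rfl⟩
    exact_mod_cast h1
  have hper : f^[i] x ∈ Function.periodicPts f := by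
    obtain ⟨p, hp, hpp⟩ := hx
    exact ⟨p, hp, hpp.apply_iterate i⟩
  have h1 := hcon i
  have h2 : X 0 ≤ |((f^[i] x : ℤ) : ℝ)| := (le_max_left _ _).trans h1
  have h3 : b + 1 ≤ |((f^[i] x : ℤ) : ℝ)| := (le_max_right _ _).trans h1
  have hbad : Bad d m r lam X (f^[i] x) ω := by
    rw [hf] at hper hmin h2 ⊢
    exact core hI hX hXt hNm hlen hω hω0 hper hmin h2
  have h4 := hb ⟨f^[i] x, ⟨h2, hbad⟩, rfl⟩
  simp only at h4
  linarith

end Pool.Agent.U187.DZ
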